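import Pool.Agent.helper36.PP.SpecM

set_option autoImplicit false

open Complex Metric Set Filter Topology MeasureTheory MPS MQ Pool.Agent.helper98.ILF

noncomputable section

namespace PPS

theorem RADX_add (f : Polynomial ℂ) (m n : ℕ) (z : ℂ) : it f (m + n) z = it f m (it f n z) := by
  unfold it
  rw [Function.iterate_add_apply]

theorem RADX_mul (f : Polynomial ℂ) (k m : ℕ) (z : ℂ) (h : it f k z = z) :
    it f (k * m) z = z := by
  induction m with
  | zero => rfl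
  | succ m ih => rw [Nat.mul_succ, RADX_add, h, ih]

theorem RADX_mod (f : Polynomial ℂ) (k j : ℕ) (z : ℂ) (h : it f k z = z) :
    it f j z = it f (j % k) z := by
  conv_lhs => rw [← Nat.mod_add_div j k]
  rw [RADX_add, RADX_mul f k _ z h]

/-- the orbits of the points of `P` -/
def RADX_O (f : Polynomial ℂ) (P : Finset ℂ) : Set ℂ := {q | ∃ p ∈ P, ∃ j, q = it f j p}

theorem RADX_Ofin (f : Polynomial ℂ) (P : Finset ℂ) (hP : ∀ p ∈ P, APt f p) :
    (RADX_O f P).Finite := by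
  have h1 : RADX_O f P ⊆ ⋃ p ∈ P, Set.range (fun j => it f j p) := by
    rintro q ⟨p, hp, j, rfl⟩
    exact Set.mem_biUnion (Finset.mem_coe.2 hp) ⟨j, rfl⟩
  refine Set.Finite.subset (Set.Finite.biUnion P.finite_toSet fun p hp => ?_) h1
  obtain ⟨k, hk, hkp, -⟩ := hP p hp
  refine Set.Finite.subset (((Set.finite_lt_nat k).image (fun j => it f j p))) ?_
  rintro _ ⟨j, rfl⟩
  exact ⟨j % k, Nat.mod_lt _ hk, (RADX_mod f k j p hkp).symm⟩

theorem RADX_lt {g : ℝ} (hg : 0 < g) : ∀ᶠ r : ℝ in 𝓝[>] 0, r < g := by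
  filter_upwards [Ioo_mem_nhdsGT hg] with r hr
  exact hr.2

theorem RADX_inf (g : ℕ → ℝ) (η : ℝ) (hη : 0 < η) (h : ∀ᶠ j in atTop, η ≤ g j)
    (h0 : ∀ j, 0 ≤ g j) : ∀ᶠ r : ℝ in 𝓝[>] 0, ∀ j, g j ≠ 0 → r < g j := by
  obtain ⟨J, hJ⟩ := eventually_atTop.1 h
  have h1 : ∀ᶠ r : ℝ in 𝓝[>] 0, ∀ j ∈ Finset.range J, g j ≠ 0 → r < g j := by
    rw [Filter.eventually_all_finset]
    intro j _
    by_cases hj : g j = 0
    · exact Eventually.of_forall fun r hne => absurd hj hne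
    · filter_upwards [RADX_lt (lt_of_le_of_ne (h0 j) (Ne.symm hj))] with r hr _
      exact hr
  filter_upwards [h1, RADX_lt hη] with r hr1 hr2 j hj
  by_cases hjJ : j < J
  · exact hr1 j (Finset.mem_range.2 hjJ) hj
  · exact lt_of_lt_of_le hr2 (hJ j (not_lt.1 hjJ))

theorem RADX_orb (f : Polynomial ℂ) (P : Finset ℂ) (hP : ∀ p ∈ P, APt f p) (x v : ℂ)
    (hx : ∀ p ∈ P, ∀ j, it f j p ≠ x) (hv : Esc f v ∨ ∃ p ∈ P, Att f p v) :
    ∀ᶠ r : ℝ in 𝓝[>] 0, ∀ j, it f j v ≠ x → r < ‖it f j v - x‖ := by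
  have key : ∃ η : ℝ, 0 < η ∧ ∀ᶠ j in atTop, η ≤ ‖it f j v - x‖ := by
    rcases hv with hv | ⟨p, hp, hv⟩
    · refine ⟨1, one_pos, ?_⟩
      filter_upwards [hv.eventually_ge_atTop (‖x‖ + 1)] with j hj
      have := norm_sub_norm_le (it f j v) x
      linarith
    · have hO := RADX_Ofin f P hP
      have h1 : ∀ᶠ r : ℝ in 𝓝[>] 0, ∀ q ∈ RADX_O f P, r < ‖q - x‖ := by
        rw [Filter.eventually_all_finite hO]
        rintro q ⟨p', hp', j, rfl⟩
        exact RADX_lt (norm_pos_iff.2 (sub_ne_zero.2 (hx p' hp' j)))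
      obtain ⟨η, hη, hη0⟩ := (h1.and self_mem_nhdsWithin).exists
      have hη0' : (0:ℝ) < η := hη0
      refine ⟨η / 2, half_pos hη0', ?_⟩
      have h2 : ∀ᶠ m in atTop, ‖it f m v - it f m p‖ < η / 2 := by
        have := (tendsto_zero_iff_norm_tendsto_zero.1 hv).eventually (gt_mem_nhds (half_pos hη0'))
        exact this
      filter_upwards [h2] with j hj
      have h3 := hη (it f j p) ⟨p, hp, j, rfl⟩
      have h4 : ‖it f j p - x‖ ≤ ‖it f j v - x‖ + ‖it f j v - it f j p‖ := by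
        have : it f j p - x = (it f j v - x) - (it f j v - it f j p) := by ring
        rw [this]
        exact norm_sub_le _ _
      linarith
  obtain ⟨η, hη, he⟩ := key
  filter_upwards [RADX_inf (fun j => ‖it f j v - x‖) η hη he (fun j => norm_nonneg _)]
    with r hr j hj
  exact hr j (norm_ne_zero_iff.2 (sub_ne_zero.2 hj))

theorem RADX_gap (O : Set ℂ) (hO : O.Finite) (x : ℂ) (r : ℝ) (hr : 0 < r)
    (h : ∀ q ∈ O, q ≠ x → r < ‖q - x‖) :
    ∀ᶠ e : ℝ in 𝓝[>] 0, ∀ q ∈ O, ∀ w : ℂ, ‖w - q‖ < e → ¬ (r / 2 < ‖w - x‖ ∧ ‖w - x‖ < r) := by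
  rw [Filter.eventually_all_finite hO]
  intro q hq
  by_cases hqx : q = x
  · filter_upwards [RADX_lt (half_pos hr)] with e he w hw
    rintro ⟨h1, -⟩
    rw [hqx] at hw
    linarith
  · have h1 := h q hq hqx
    filter_upwards [RADX_lt (sub_pos.2 h1)] with e he w hw
    rintro ⟨-, h2⟩
    have h4 : ‖q - x‖ ≤ ‖w - x‖ + ‖w - q‖ := by
      have : q - x = (w - x) - (w - q) := by ring
      rw [this]
      exact norm_sub_le _ _
    linarith

theorem RADX_diff (f : Polynomial ℂ) (m : ℕ) : Differentiable ℂ (it f m) := by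
  unfold it
  exact (f.differentiable).iterate m

theorem RADX_pow (f : Polynomial ℂ) (k m : ℕ) (z : ℂ) (h : it f k z = z) :
    deriv (it f (k * m)) z = deriv (it f k) z ^ m := by
  have h1 : it f (k * m) = (it f k)^[m] := by
    unfold it
    rw [Function.iterate_mul]
  rw [h1]
  exact (HasDerivAt.iterate z (RADX_diff f k z).hasDerivAt h m).deriv

theorem RADX (hTRA : TRA_stmt) (hTRU : TRU_stmt) (hTRI : TRI_stmt) (hATF : ATF_stmt) :
    RADX_stmt := by
  intro f A F P T hf hP hF hA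
  have hO := RADX_Ofin f P hP
  have hcl : ∀ x ∈ F ∪ P, Esc f x ∨ ∃ p ∈ P, Att f p x := by
    intro x hx
    rcases Finset.mem_union.1 hx with h | h
    · exact hF x h
    · right
      refine ⟨x, h, ?_⟩
      unfold Att
      simp only [sub_self]
      exact tendsto_const_nhds
  -- the individual conditions
  have c1 : ∀ᶠ r : ℝ in 𝓝[>] 0, ∀ x ∈ F ∪ P, r < A - ‖x‖ := by
    rw [Filter.eventually_all_finset]
    intro x hx
    exact RADX_lt (sub_pos.2 (hA x hx))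
  have c2 : ∀ᶠ r : ℝ in 𝓝[>] 0, ∀ x ∈ F ∪ P, ∀ w ∈ T, w ≠ x → r < ‖w - x‖ := by
    rw [Filter.eventually_all_finset]
    intro x hx
    rw [Filter.eventually_all_finset]
    intro w hw
    by_cases hwx : w = x
    · exact Eventually.of_forall fun r hne => absurd hwx hne
    · filter_upwards [RADX_lt (norm_pos_iff.2 (sub_ne_zero.2 hwx))] with r hr _
      exact hr
  have c3 : ∀ᶠ r : ℝ in 𝓝[>] 0, ∀ x ∈ F ∪ P, ∀ q ∈ RADX_O f P, q ≠ x → r < ‖q - x‖ := by
    rw [Filter.eventually_all_finset]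
    intro x hx
    rw [Filter.eventually_all_finite hO]
    intro w hw
    by_cases hwx : w = x
    · exact Eventually.of_forall fun r hne => absurd hwx hne
    · filter_upwards [RADX_lt (norm_pos_iff.2 (sub_ne_zero.2 hwx))] with r hr _
      exact hr
  have c4 : ∀ᶠ r : ℝ in 𝓝[>] 0, ∀ x ∈ F, ∀ v ∈ F, (∀ p ∈ P, ∀ j, it f j p ≠ x) →
      ∀ j, it f j v ≠ x → r < ‖it f j v - x‖ := by
    rw [Filter.eventually_all_finset]
    intro x hx
    rw [Filter.eventually_all_finset]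
    intro v hv
    by_cases hx2 : ∀ p ∈ P, ∀ j, it f j p ≠ x
    · filter_upwards [RADX_orb f P hP x v hx2 (hF v hv)] with r hr _
      exact hr
    · exact Eventually.of_forall fun r hne => absurd hne hx2
  have c5 : ∀ᶠ r : ℝ in 𝓝[>] 0, ∀ x ∈ F ∪ P,
      (∀ B : ℝ, ∃ M : ℕ, ∀ m, M ≤ m → ∀ z : ℂ, ‖z - x‖ ≤ r → B < ‖it f m z‖) ∨
      ∃ p ∈ P, ∀ ε > (0 : ℝ), ∃ M : ℕ, ∀ m, M ≤ m → ∀ z : ℂ,
        ‖z - x‖ ≤ r → ‖it f m z - it f m p‖ < ε := by
    rw [Filter.eventually_all_finset]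
    intro x hx
    rcases hcl x hx with h | ⟨p, hp, h⟩
    · obtain ⟨r0, hr0, h2⟩ := hTRI f x hf h
      filter_upwards [RADX_lt hr0] with r hr
      left
      intro B
      obtain ⟨M, hM⟩ := h2 B
      exact ⟨M, fun m hm z hz => hM m hm z (hz.trans hr.le)⟩
    · obtain ⟨-, r0, hr0, h2⟩ := hTRU f p x (hP p hp) h
      filter_upwards [RADX_lt hr0] with r hr
      right
      refine ⟨p, hp, fun ε hε => ?_⟩
      obtain ⟨M, hM⟩ := h2 ε hε
      exact ⟨M, fun m hm z hz => hM m hm z (hz.trans hr.le)⟩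
  obtain ⟨r, hr1, hr2, hr3, hr4, hr5, hr0⟩ :=
    (c1.and (c2.and (c3.and (c4.and (c5.and self_mem_nhdsWithin))))).exists
  have hr0' : (0:ℝ) < r := hr0
  refine ⟨r, hr0', ?_, hr2, ?_, ?_, ?_, ?_, ?_⟩
  · intro x hx z hz
    rw [mem_closedBall_iff_norm] at hz
    rw [mem_ball_zero_iff]
    have h1 := hr1 x hx
    have h2 : ‖z‖ ≤ ‖z - x‖ + ‖x‖ := by
      have : z = (z - x) + x := by ring
      conv_lhs => rw [this]
      exact norm_add_le _ _
    linarith
  · intro x hx p hp j hj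
    exact hr3 x hx _ ⟨p, hp, j, rfl⟩ hj
  · intro x hx h v hv j hj
    exact hr4 x hx v hv h j hj
  · intro x hx
    rcases hr5 x hx with h | ⟨p, hp, h⟩
    · obtain ⟨M, hM⟩ := h (‖x‖ + r)
      refine ⟨M, fun z _ hz m hm => ?_⟩
      rintro ⟨-, h1⟩
      have h2 := hM m hm z hz.le
      have h3 := norm_sub_norm_le (it f m z) x
      linarith
    · obtain ⟨e, he1, he2⟩ := ((RADX_gap _ hO x r hr0' (hr3 x hx)).and self_mem_nhdsWithin).exists
      obtain ⟨M, hM⟩ := h e he2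
      refine ⟨M, fun z _ hz m hm => ?_⟩
      exact he1 (it f m p) ⟨p, hp, m, rfl⟩ _ (hM m hm z hz.le)
  · intro x hx z hz k hk hkz
    rw [mem_closedBall_iff_norm] at hz
    rcases hr5 x hx with h | ⟨p, hp, h⟩
    · exfalso
      obtain ⟨M, hM⟩ := h ‖z‖
      have h1 := hM (k * M) (Nat.le_mul_of_pos_left M hk) z hz
      rw [RADX_mul f k M z hkz] at h1
      exact lt_irrefl _ h1
    · obtain ⟨k', hk', hkp, hd⟩ := hP p hp
      have hzp : z = p := by
        by_contra hne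
        obtain ⟨M, hM⟩ := h ‖z - p‖ (norm_pos_iff.2 (sub_ne_zero.2 hne))
        have h1 := hM (k * (k' * M)) ((Nat.le_mul_of_pos_left M hk').trans
          (Nat.le_mul_of_pos_left _ hk)) z hz
        rw [RADX_mul f k _ z hkz, ← mul_assoc, mul_comm k k', mul_assoc,
          RADX_mul f k' _ p hkp] at h1
        exact lt_irrefl _ h1
      subst hzp
      have h1 := RADX_pow f k k' z hkz
      have h2 := RADX_pow f k' k z hkp
      rw [mul_comm k' k, h1] at h2
      by_contra hcon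
      rw [not_lt] at hcon
      have h3 := congrArg norm h2
      rw [norm_pow, norm_pow] at h3
      have h4 : ‖deriv (it f k') z‖ ^ k < 1 := pow_lt_one₀ (norm_nonneg _) hd hk.ne'
      have h5 : 1 ≤ ‖deriv (it f k) z‖ ^ k' := one_le_pow₀ hcon
      linarith
  · intro p hp j
    have hq : APt f (it f j p) := (hTRU f p p (hP p hp) (by
      unfold Att
      simp only [sub_self]
      exact tendsto_const_nhds)).1 j
    obtain ⟨ε1, hε1, h1⟩ := hATF f _ hq
    have h2 : ∀ᶠ e : ℝ in 𝓝[>] 0, ∀ x ∈ F ∪ P, ∀ q ∈ RADX_O f P, ∀ w : ℂ, ‖w - q‖ < e →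
        ¬ (r / 2 < ‖w - x‖ ∧ ‖w - x‖ < r) := by
      rw [Filter.eventually_all_finset]
      intro x hx
      exact RADX_gap _ hO x r hr0' (hr3 x hx)
    obtain ⟨e, he1, he2⟩ := (h2.and self_mem_nhdsWithin).exists
    obtain ⟨δ, hδ, h3⟩ := (hTRA f _ hq).1 e he2
    refine ⟨min ε1 δ, lt_min hε1 hδ, fun z hz => ⟨h1 z (hz.trans_le (min_le_left _ _)), ?_⟩⟩
    intro m x hx
    refine he1 x hx (it f m (it f j p)) ⟨p, hp, m + j, (RADX_add f m j p).symm⟩ _ ?_
    exact h3 z (hz.trans_le (min_le_right _ _)) m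

end PPS
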