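import Pool.Agent.helper25.PP.Spec

/-!
# Project pp, module FT1: the exact five-term relation
-/

set_option autoImplicit false

namespace PP

open Finset SimpleGraph CT

section
variable {V : Type} [DecidableEq V]

/-- The inclusion of the darts. -/
def FT1_i (d : V × Fin 4) : Option V × Fin 4 := (some d.1, d.2)

omit [DecidableEq V] in
theorem FT1_i_inj {d d' : V × Fin 4} : FT1_i d = FT1_i d' ↔ d = d' := by
  obtain ⟨a, i⟩ := d
  obtain ⟨b, j⟩ := d'
  simp [FT1_i]

omit [DecidableEq V] in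
theorem FT1_i_ne (d : V × Fin 4) (k : Fin 4) : FT1_i d ≠ (none, k) := by
  simp [FT1_i]

omit [DecidableEq V] in
theorem FT1_i_ne' (d : V × Fin 4) (k : Fin 4) : (none, k) ≠ FT1_i d := by
  simp [FT1_i]

omit [DecidableEq V] in
theorem FT1_cases (z : Option V × Fin 4) : (∃ k, z = (none, k)) ∨ ∃ d, z = FT1_i d := by
  obtain ⟨_ | u, k⟩ := z
  · exact Or.inl ⟨k, rfl⟩
  · exact Or.inr ⟨(u, k), rfl⟩

/-- The extension by fixed darts. -/
def FT1_x (e : V × Fin 4 → V × Fin 4) : Option V × Fin 4 → Option V × Fin 4 := fun z =>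
  match z.1 with
  | none => z
  | some u => FT1_i (e (u, z.2))

omit [DecidableEq V] in
theorem FT1_x_i (e : V × Fin 4 → V × Fin 4) (d : V × Fin 4) :
    FT1_x e (FT1_i d) = FT1_i (e d) := rfl

omit [DecidableEq V] in
theorem FT1_x_n (e : V × Fin 4 → V × Fin 4) (k : Fin 4) :
    FT1_x e (none, k) = (none, k) := rfl

/-- The extension with two strands leaving at `none`. -/
def FT1_e (e : V × Fin 4 → V × Fin 4) (b : V × Fin 4) : Option V × Fin 4 → Option V × Fin 4 :=
  fun z =>
  match z.1 with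
  | none => if z.2 = 0 then FT1_i b else if z.2 = 1 then FT1_i (e b) else z
  | some u => if (u, z.2) = b then (none, 0) else if (u, z.2) = e b then (none, 1)
      else FT1_i (e (u, z.2))

theorem FT1_e_i (e : V × Fin 4 → V × Fin 4) (b d : V × Fin 4) :
    FT1_e e b (FT1_i d) = if d = b then (none, 0) else if d = e b then (none, 1)
      else FT1_i (e d) := rfl

theorem FT1_e_0 (e : V × Fin 4 → V × Fin 4) (b : V × Fin 4) :
    FT1_e e b (none, 0) = FT1_i b := rfl

theorem FT1_e_1 (e : V × Fin 4 → V × Fin 4) (b : V × Fin 4) :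
    FT1_e e b (none, 1) = FT1_i (e b) := rfl

theorem FT1_e_2 (e : V × Fin 4 → V × Fin 4) (b : V × Fin 4) :
    FT1_e e b (none, 2) = (none, 2) := rfl

theorem FT1_e_3 (e : V × Fin 4 → V × Fin 4) (b : V × Fin 4) :
    FT1_e e b (none, 3) = (none, 3) := rfl

/-- Joining the two free legs gives back `e`. -/
theorem FT1_A (e : V × Fin 4 → V × Fin 4) (he : ∀ d, e (e d) = d) (b : V × Fin 4) :
    join (FT1_e e b) (none, 0) (none, 1) = FT1_x e := by
  funext z
  rcases FT1_cases z with ⟨k, rfl⟩ | ⟨d, rfl⟩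
  · rw [FT1_x_n]
    fin_cases k
    · simp [join]
    · simp [join]
    · simp [join, FT1_e_2]
    · simp [join, FT1_e_3]
  · rw [FT1_x_i]
    unfold join
    rw [FT1_e_i]
    by_cases h1 : d = b
    · subst h1
      simp [FT1_i_ne, FT1_e_1]
    by_cases h2 : d = e b
    · subst h2
      simp [FT1_i_ne, FT1_e_0, he, h1]
    · simp [FT1_i_ne, h1, h2]

/-- The join of the first free leg with the dart `a`. -/
theorem FT1_F (e : V × Fin 4 → V × Fin 4) (he : ∀ d, e (e d) = d) (a b : V × Fin 4)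
    (hab : a ≠ b) (hab' : a ≠ e b) (d : V × Fin 4) :
    join (FT1_e e b) (none, 0) (FT1_i a) (FT1_i d) =
      if d = a then FT1_i a else if d = b then FT1_i (e a) else if d = e b then (none, 1)
      else if d = e a then FT1_i b else FT1_i (e d) := by
  unfold join
  rw [FT1_e_i, FT1_e_i, FT1_e_0]
  have hs : ∀ x y, e x = y ↔ x = e y := fun x y => CT.eq_swap he
  by_cases h1 : d = a
  · subst h1
    simp
  by_cases h2 : d = b
  · subst h2
    simp [FT1_i_ne, FT1_i_inj, h1, hab, hab']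
  by_cases h3 : d = e b
  · subst h3
    simp [FT1_i_ne, FT1_i_inj, FT1_i_ne', h1, h2]
  by_cases h4 : d = e a
  · subst h4
    simp [FT1_i_ne, FT1_i_inj, FT1_i_ne', h1, h2, h3, he]
  · have h5 : e d ≠ a := by
      intro h
      exact h4 ((hs _ _).1 h)
    simp [FT1_i_ne, FT1_i_inj, FT1_i_ne', h1, h2, h3, h4, h5]

theorem FT1_Fn (e : V × Fin 4 → V × Fin 4) (a b : V × Fin 4)
    (hab' : a ≠ e b) :
    join (FT1_e e b) (none, 0) (FT1_i a) (none, 0) = (none, 0) ∧
    join (FT1_e e b) (none, 0) (FT1_i a) (none, 1) = FT1_i (e b) ∧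
    join (FT1_e e b) (none, 0) (FT1_i a) (none, 2) = (none, 2) ∧
    join (FT1_e e b) (none, 0) (FT1_i a) (none, 3) = (none, 3) := by
  have h := hab'.symm
  refine ⟨?_, ?_, ?_, ?_⟩
  · simp [join]
  · simp [join, FT1_e_1, FT1_i_ne, FT1_i_ne', FT1_i_inj, h]
  · simp [join, FT1_e_2, FT1_i_ne']
  · simp [join, FT1_e_3, FT1_i_ne']

/-- The second join. -/
theorem FT1_B (e : V × Fin 4 → V × Fin 4) (he : ∀ d, e (e d) = d) (a b c : V × Fin 4)
    (hab : a ≠ b) (hab' : a ≠ e b) (hcb : c ≠ b) (hcb' : c ≠ e b) (hca : c ≠ a)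
    (ha : e a ≠ a) (hb : e b ≠ b) (hc : e c ≠ c) :
    join (join (FT1_e e b) (none, 0) (FT1_i a)) (none, 1) (FT1_i c) =
      join (FT1_x (rmt e a b)) (FT1_i a) (FT1_i c) := by
  obtain ⟨n0, n1, n2, n3⟩ := FT1_Fn e a b hab'
  have hF := FT1_F e he a b hab hab'
  have hs : ∀ x y, e x = y ↔ x = e y := fun x y => CT.eq_swap he
  have hxa : FT1_x (rmt e a b) (FT1_i a) = FT1_i (e b) := by
    rw [FT1_x_i]
    simp [rmt]
  funext z
  rcases FT1_cases z with ⟨k, rfl⟩ | ⟨d, rfl⟩
  · have hr : join (FT1_x (rmt e a b)) (FT1_i a) (FT1_i c) (none, k) = (none, k) := by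
      unfold join
      simp [FT1_x_n, FT1_i_ne']
    rw [hr]
    unfold join at n0 n1 n2 n3 ⊢
    fin_cases k
    · simp_all [FT1_i_ne']
    · simp
    · simp_all [FT1_i_ne']
    · simp_all [FT1_i_ne']
  · have hj : ∀ (g : Option V × Fin 4 → Option V × Fin 4) x y z, join g x y z =
        if z = x ∨ z = y then z else if g z = x then g y else if g z = y then g x else g z :=
      fun _ _ _ _ => rfl
    rw [hj (join (FT1_e e b) (none, 0) (FT1_i a)) (none, 1) (FT1_i c) (FT1_i d),
      hj (FT1_x (rmt e a b)) (FT1_i a) (FT1_i c) (FT1_i d), n1, hF d, hF c, hxa, FT1_x_i, FT1_x_i]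
    clear n0 n1 n2 n3 hF hxa hj
    simp only [FT1_i_inj, FT1_i_ne, false_or]
    unfold rmt
    have e1 := he a
    have e2 := he b
    have e3 := he c
    have e4 := he d
    split_ifs <;> first | rfl | grind [FT1_i_inj, FT1_i_ne, FT1_i_ne']

/-- Two joins. -/
def FT1_t (x : ℤ) (L : List (Option V)) (E : Option V × Fin 4 → Option V × Fin 4)
    (p q r s : Option V × Fin 4) : ℤ :=
  x ^ (lp E p q + lp (join E p q) r s) * Z x L (join (join E p q) r s)

theorem FT1_s1 (x : ℤ) (L : List (Option V)) (E : Option V × Fin 4 → Option V × Fin 4)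
    (hE : ∀ d, E (E d) = d) (p q r s : Option V × Fin 4) :
    FT1_t x L E p q r s = FT1_t x L E q p r s := by
  unfold FT1_t
  rw [join_symm E hE p q, lp_symm E hE p q]

theorem FT1_s2 (x : ℤ) (L : List (Option V)) (E : Option V × Fin 4 → Option V × Fin 4)
    (hE : ∀ d, E (E d) = d) (p q r s : Option V × Fin 4) (hpq : p ≠ q) (hpr : p ≠ r)
    (hps : p ≠ s) (hqr : q ≠ r) (hqs : q ≠ s) (hrs : r ≠ s)
    (hp : E p ≠ p) (hq : E q ≠ q) (hr : E r ≠ r) (hs : E s ≠ s) :
    FT1_t x L E p q r s = FT1_t x L E r s p q := by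
  unfold FT1_t
  rw [join_comm E hE hpq hpr hps hqr hqs hrs hp hq hr hs,
    lp_comm E hE hpq hpr hps hqr hqs hrs hp hq hr hs]

theorem FT1_Z (x : ℤ) (L : List (Option V)) (E : Option V × Fin 4 → Option V × Fin 4)
    (u : Option V) :
    Z x (u :: L) E = FT1_t x L E (u, 0) (u, 1) (u, 2) (u, 3) +
      FT1_t x L E (u, 0) (u, 2) (u, 1) (u, 3) + FT1_t x L E (u, 0) (u, 3) (u, 1) (u, 2) := by
  show ∑ t : Fin 3, x ^ ls E u t * Z x L (sm E u t) = _
  rw [Fin.sum_univ_three]
  rfl

theorem FT1_T0 (x : ℤ) (L : List (Option V)) (e : V × Fin 4 → V × Fin 4)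
    (he : ∀ d, e (e d) = d) (b : V × Fin 4) (p q r s : Option V × Fin 4) :
    T3 x L (FT1_e e b) (none, 0) (none, 1) p q r s = FT1_t x L (FT1_x e) p q r s := by
  unfold T3 FT1_t join3 lp3
  rw [FT1_A e he b]
  have h : lp (FT1_e e b) (none, 0) (none, 1) = 0 := by
    unfold CT.lp
    rw [FT1_e_0]
    simp [FT1_i_ne]
  rw [h, zero_add]

theorem FT1_T1 (x : ℤ) (L : List (Option V)) (e : V × Fin 4 → V × Fin 4)
    (he : ∀ d, e (e d) = d) (a b c : V × Fin 4)
    (hab : a ≠ b) (hab' : a ≠ e b) (hcb : c ≠ b) (hcb' : c ≠ e b) (hca : c ≠ a)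
    (ha : e a ≠ a) (hb : e b ≠ b) (hc : e c ≠ c) (r s : Option V × Fin 4) :
    T3 x L (FT1_e e b) (none, 0) (FT1_i a) (none, 1) (FT1_i c) r s =
      FT1_t x L (FT1_x (rmt e a b)) (FT1_i a) (FT1_i c) r s := by
  unfold T3 FT1_t join3 lp3
  rw [FT1_B e he a b c hab hab' hcb hcb' hca ha hb hc]
  have h : lp (FT1_e e b) (none, 0) (FT1_i a) = 0 := by
    unfold CT.lp
    rw [FT1_e_0]
    simp [FT1_i_inj, hab.symm]
  have h1 : lp (join (FT1_e e b) (none, 0) (FT1_i a)) (none, 1) (FT1_i c) = 0 := by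
    unfold CT.lp
    rw [(FT1_Fn e a b hab').2.1]
    simp [FT1_i_inj, hcb'.symm]
  have h2 : lp (FT1_x (rmt e a b)) (FT1_i a) (FT1_i c) = 0 := by
    unfold CT.lp
    rw [FT1_x_i]
    simp [FT1_i_inj, rmt, hcb'.symm]
  rw [h, h1, h2, zero_add]

theorem FT1_rmt (e : V × Fin 4 → V × Fin 4) (he : ∀ d, e (e d) = d) (a b : V × Fin 4)
    (hab : a ≠ b) (hab' : a ≠ e b) (ha : e a ≠ a) (hb : e b ≠ b) :
    (∀ d, rmt e a b (rmt e a b d) = d) ∧ ∀ d, e d ≠ d → rmt e a b d ≠ d := by
  have e1 := he a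
  have e2 := he b
  refine ⟨?_, ?_⟩
  · intro d
    have e4 := he d
    unfold rmt
    grind
  · intro d hd
    have e4 := he d
    unfold rmt
    grind

theorem FT1_xinv (e : V × Fin 4 → V × Fin 4) (he : ∀ d, e (e d) = d) :
    ∀ d, FT1_x e (FT1_x e d) = d := by
  intro z
  rcases FT1_cases z with ⟨k, rfl⟩ | ⟨d, rfl⟩
  · rfl
  · rw [FT1_x_i, FT1_x_i, he]

theorem FT1_einv (e : V × Fin 4 → V × Fin 4) (he : ∀ d, e (e d) = d) (b : V × Fin 4)
    (hb : e b ≠ b) : ∀ d, FT1_e e b (FT1_e e b d) = d := by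
  intro z
  rcases FT1_cases z with ⟨k, rfl⟩ | ⟨d, rfl⟩
  · fin_cases k
    · show FT1_e e b (FT1_i b) = _
      rw [FT1_e_i]
      simp
    · show FT1_e e b (FT1_i (e b)) = _
      rw [FT1_e_i]
      simp [hb]
    · rfl
    · rfl
  · rw [FT1_e_i]
    by_cases h1 : d = b
    · subst h1
      simp [FT1_e_0]
    by_cases h2 : d = e b
    · subst h2
      simp [FT1_e_1, h1]
    · have h3 : e d ≠ b := by
        intro h
        exact h2 ((CT.eq_swap he).1 h)
      have h4 : e d ≠ e b := by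
        intro h
        exact h1 ((CT.inj_of he).1 h)
      simp only [h1, h2, if_false]
      rw [FT1_e_i]
      simp [h3, h4, he]

end

theorem FT1 (h1 : NAT_stmt) (h2 : CT.D1_stmt) (_h3 : CT.D0_stmt) : FT1_stmt := by
  intro V _ L e v b hnd hact hbL hebv
  obtain ⟨he, hA⟩ := hact
  have hvL : v ∉ L := (List.nodup_cons.mp hnd).1
  have hact1 : ∀ u ∈ v :: L, ∀ k, e (u, k) ≠ (u, k) := by
    intro u hu k
    rw [hA]
    simp only [dts, mem_product, mem_univ, and_true, List.mem_toFinset]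
    exact hu
  have hv : ∀ k, e (v, k) ≠ (v, k) := hact1 v (by simp)
  have hb : e b ≠ b := hact1 b.1 (List.mem_cons_of_mem _ hbL) b.2
  have hbv : ∀ k, (v, k) ≠ b := by
    intro k h
    apply hvL
    rw [← h] at hbL
    exact hbL
  have hbv' : ∀ k, (v, k) ≠ e b := by
    intro k h
    apply hebv
    rw [← h]
  -- D1
  have hD := h2 (Option V) (L.map some) (FT1_e e b) (none, 0) (none, 1) (some v, 0) (some v, 1)
    (some v, 2) (some v, 3) ?_ ?_ ?_ ?_
  · have hrest : ∀ i : Fin 4, FT1_t (-4) (L.map some) (FT1_x (rmt e (v, i) b)) (some v, 0)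
        (some v, 1) (some v, 2) (some v, 3) + FT1_t (-4) (L.map some) (FT1_x (rmt e (v, i) b)) (some v, 0)
        (some v, 2) (some v, 1) (some v, 3) + FT1_t (-4) (L.map some) (FT1_x (rmt e (v, i) b)) (some v, 0)
        (some v, 3) (some v, 1) (some v, 2) = Z (-4) (v :: L) (rmt e (v, i) b) := by
      intro i
      rw [← FT1_Z]
      exact h1 V (Option V) some (-4) (v :: L) (rmt e (v, i) b) (FT1_x (rmt e (v, i) b))
        (Option.some_injective V) (fun d => rfl)
    have hfirst : FT1_t (-4) (L.map some) (FT1_x e) (some v, 0)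
        (some v, 1) (some v, 2) (some v, 3) + FT1_t (-4) (L.map some) (FT1_x e) (some v, 0)
        (some v, 2) (some v, 1) (some v, 3) + FT1_t (-4) (L.map some) (FT1_x e) (some v, 0)
        (some v, 3) (some v, 1) (some v, 2) = Z (-4) (v :: L) e := by
      rw [← FT1_Z]
      exact h1 V (Option V) some (-4) (v :: L) e (FT1_x e)
        (Option.some_injective V) (fun d => rfl)
    rw [Fin.sum_univ_four, ← hfirst, ← hrest 0, ← hrest 1, ← hrest 2, ← hrest 3]
    have hT : ∀ (i j : Fin 4) (r s : Option V × Fin 4), j ≠ i →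
        T3 (-4) (L.map some) (FT1_e e b) (none, 0) (some v, i) (none, 1) (some v, j) r s =
        FT1_t (-4) (L.map some) (FT1_x (rmt e (v, i) b)) (some v, i) (some v, j) r s := by
      intro i j r s hij
      exact FT1_T1 (-4) (L.map some) e he (v, i) b (v, j) (hbv i) (hbv' i) (hbv j) (hbv' j)
        (by simpa using hij) (hv i) hb (hv j) r s
    rw [FT1_T0 _ _ e he b, FT1_T0 _ _ e he b, FT1_T0 _ _ e he b,
      hT 0 1 _ _ (by decide), hT 0 2 _ _ (by decide), hT 0 3 _ _ (by decide),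
      hT 1 0 _ _ (by decide), hT 1 2 _ _ (by decide), hT 1 3 _ _ (by decide),
      hT 2 0 _ _ (by decide), hT 2 1 _ _ (by decide), hT 2 3 _ _ (by decide),
      hT 3 0 _ _ (by decide), hT 3 1 _ _ (by decide), hT 3 2 _ _ (by decide)] at hD
    have hI : ∀ i : Fin 4, (∀ d, FT1_x (rmt e (v, i) b) (FT1_x (rmt e (v, i) b) d) = d) ∧
        ∀ k : Fin 4, FT1_x (rmt e (v, i) b) (some v, k) ≠ (some v, k) := by
      intro i
      obtain ⟨r1, r2⟩ := FT1_rmt e he (v, i) b (hbv i) (hbv' i) (hv i) hb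
      refine ⟨FT1_xinv _ r1, ?_⟩
      intro k h
      have h' : FT1_i (rmt e (v, i) b (v, k)) = FT1_i (v, k) := h
      rw [FT1_i_inj] at h'
      exact r2 (v, k) (hv k) h'
    have hS : ∀ i p q r s : Fin 4, [p, q, r, s].Nodup →
        FT1_t (-4) (L.map some) (FT1_x (rmt e (v, i) b)) (some v, p) (some v, q) (some v, r)
          (some v, s) =
        FT1_t (-4) (L.map some) (FT1_x (rmt e (v, i) b)) (some v, r) (some v, s) (some v, p)
          (some v, q) := by
      intro i p q r s hn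
      obtain ⟨hE, hk⟩ := hI i
      simp only [List.nodup_cons, List.mem_cons, List.not_mem_nil, or_false, not_or,
        not_false_eq_true, List.nodup_nil, and_true] at hn
      obtain ⟨⟨a1, a2, a3⟩, ⟨a4, a5⟩, a6⟩ := hn
      exact FT1_s2 _ _ _ hE _ _ _ _ (by simpa using a1) (by simpa using a2) (by simpa using a3)
        (by simpa using a4) (by simpa using a5) (by simpa using a6) (hk p) (hk q) (hk r) (hk s)
    rw [FT1_s1 _ _ _ (hI 1).1 (some v, 1) (some v, 0), hS 1 1 2 0 3 (by decide),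
      hS 1 1 3 0 2 (by decide),
      FT1_s1 _ _ _ (hI 2).1 (some v, 2) (some v, 0), FT1_s1 _ _ _ (hI 2).1 (some v, 2) (some v, 1),
      hS 2 1 2 0 3 (by decide), hS 2 2 3 0 1 (by decide),
      FT1_s1 _ _ _ (hI 3).1 (some v, 3) (some v, 0), FT1_s1 _ _ _ (hI 3).1 (some v, 3) (some v, 1),
      hS 3 1 3 0 2 (by decide), FT1_s1 _ _ _ (hI 3).1 (some v, 3) (some v, 2),
      hS 3 2 3 0 1 (by decide)] at hD
    linear_combination hD
  · exact (List.nodup_cons.mp hnd).2.map (Option.some_injective V)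
  · simp
  · intro z hz
    simp only [List.mem_cons, List.not_mem_nil, or_false] at hz
    rcases hz with rfl | rfl | rfl | rfl | rfl | rfl <;> simp [hvL]
  · refine ⟨FT1_einv e he b hb, ?_⟩
    intro z
    rcases FT1_cases z with ⟨k, rfl⟩ | ⟨d, rfl⟩
    · fin_cases k
      · simp [FT1_e_0, FT1_i_ne]
      · simp [FT1_e_1, FT1_i_ne]
      · simp [FT1_e_2, dts]
      · simp [FT1_e_3, dts]
    · have hd : FT1_e e b (FT1_i d) ≠ FT1_i d ↔ e d ≠ d := by
        rw [FT1_e_i]
        by_cases h1 : d = b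
        · subst h1
          simp [FT1_i_ne', hb]
        by_cases h2 : d = e b
        · subst h2
          simp [FT1_i_ne', hb, he, hb.symm]
        · simp [FT1_i_inj, h1, h2]
      rw [hd, hA d]
      obtain ⟨u, k⟩ := d
      have hk : k = 0 ∨ k = 1 ∨ k = 2 ∨ k = 3 := by
        fin_cases k <;> simp
      simp only [dts, mem_product, mem_univ, and_true, List.mem_toFinset, List.mem_cons,
        FT1_i, mem_union, List.mem_map, Option.some.injEq, exists_eq_right, mem_insert,
        mem_singleton, Prod.mk.injEq]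
      constructor
      · rintro (h | h)
        · right
          simp [h, hk]
        · left
          exact h
      · rintro (h | h)
        · right
          exact h
        · left
          rcases h with h | h | h | h | h | h
          · simp at h
          · simp at h
          · exact h.1
          · exact h.1
          · exact h.1
          · exact h.1

end PP
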