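import Pool.Agent.helper57.PP.Spec

/-!
# Project pp (MP_974a61_co), row LED: edges and triangles of the double cover
-/

set_option autoImplicit false

namespace Pool.Agent.helper57.PP

open Finset

theorem LED_ps {V : Type} [DecidableEq V] {a b c : V} (hab : a ≠ b) (hac : a ≠ c) (hbc : b ≠ c) :
    powersetCard 2 ({a, b, c} : Finset V) = {{a, b}, {a, c}, {b, c}} := by
  ext e
  rw [mem_powersetCard]
  simp only [mem_insert, mem_singleton]
  constructor
  · rintro ⟨h1, h2⟩
    obtain ⟨u, v, huv, rfl⟩ := Finset.card_eq_two.1 h2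
    have hu : u ∈ ({a, b, c} : Finset V) := h1 (mem_insert_self u {v})
    have hv : v ∈ ({a, b, c} : Finset V) := h1 (by simp)
    simp only [mem_insert, mem_singleton] at hu hv
    rcases hu with hu | hu | hu <;> rcases hv with hv | hv | hv <;> rw [hu, hv] at huv ⊢ <;>
      first
      | exact absurd rfl huv
      | exact Or.inl rfl
      | exact Or.inl (Finset.pair_comm _ _)
      | exact Or.inr (Or.inl rfl)
      | exact Or.inr (Or.inl (Finset.pair_comm _ _))
      | exact Or.inr (Or.inr rfl)
      | exact Or.inr (Or.inr (Finset.pair_comm _ _))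
  · rintro (h | h | h)
    · rw [h]
      refine ⟨?_, card_pair hab⟩
      intro u hu
      simp only [mem_insert, mem_singleton] at hu ⊢
      tauto
    · rw [h]
      refine ⟨?_, card_pair hac⟩
      intro u hu
      simp only [mem_insert, mem_singleton] at hu ⊢
      tauto
    · rw [h]
      refine ⟨?_, card_pair hbc⟩
      intro u hu
      simp only [mem_insert, mem_singleton] at hu ⊢
      tauto

theorem LED_ne {V : Type} {A B : Finset V} {u : V} (h : u ∈ A) (h' : u ∉ B) : A ≠ B := by
  intro h2
  rw [h2] at h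
  exact h' h

theorem LED_sum {V : Type} [DecidableEq V] (w : Finset V → ZMod 2) {a b c : V} (hab : a ≠ b)
    (hac : a ≠ c) (hbc : b ≠ c) :
    ∑ e ∈ powersetCard 2 ({a, b, c} : Finset V), w e = w {a, b} + (w {a, c} + w {b, c}) := by
  rw [LED_ps hab hac hbc, Finset.sum_insert, Finset.sum_insert, Finset.sum_singleton]
  · rw [mem_singleton]
    refine LED_ne (u := a) (by simp) ?_
    simp only [mem_insert, mem_singleton]
    tauto
  · simp only [mem_insert, mem_singleton, not_or]
    refine ⟨LED_ne (u := b) (by simp) ?_, LED_ne (u := a) (by simp) ?_⟩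
    · simp only [mem_insert, mem_singleton]
      rintro (h | h)
      · exact hab h.symm
      · exact hbc h
    · simp only [mem_insert, mem_singleton]
      tauto

theorem LED_tri {V : Type} [Fintype V] [DecidableEq V] {F : Finset (Finset V)}
    {w : Finset V → ZMod 2} (hS : IsSurface F) (hw : Coc F w) (x y z : V × ZMod 2) :
    {x, y, z} ∈ lift F w ↔
    x.1 ≠ y.1 ∧ x.1 ≠ z.1 ∧ y.1 ≠ z.1 ∧ {x.1, y.1, z.1} ∈ F ∧ x.2 + y.2 = w {x.1, y.1} ∧
      x.2 + z.2 = w {x.1, z.1} := by
  have him : ({x, y, z} : Finset (V × ZMod 2)).image Prod.fst = {x.1, y.1, z.1} := by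
    rw [image_insert, image_insert, image_singleton]
  unfold lift
  simp only [mem_filter, mem_univ, true_and]
  rw [him]
  constructor
  · rintro ⟨-, h2, h3⟩
    have h4 := hS.card3 _ h2
    have hxy : x.1 ≠ y.1 := by
      intro h
      rw [h, insert_eq_of_mem (mem_insert_self _ _)] at h4
      have := card_le_two (a := y.1) (b := z.1)
      omega
    have hxz : x.1 ≠ z.1 := by
      intro h
      rw [h, insert_eq_of_mem (by simp)] at h4
      have := card_le_two (a := y.1) (b := z.1)
      omega
    have hyz : y.1 ≠ z.1 := by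
      intro h
      rw [h, insert_eq_of_mem (mem_singleton_self z.1)] at h4
      have := card_le_two (a := x.1) (b := z.1)
      omega
    exact ⟨hxy, hxz, hyz, h2,
      h3 x (by simp) y (by simp) (fun h => hxy (by rw [h])),
      h3 x (by simp) z (by simp) (fun h => hxz (by rw [h]))⟩
  · rintro ⟨hxy, hxz, hyz, h2, h3, h4⟩
    have hsum := hw _ h2
    rw [LED_sum w hxy hxz hyz] at hsum
    have h5 : y.2 + z.2 = w {y.1, z.1} := by
      have key : ∀ a b c p q r : ZMod 2, p + (q + r) = 0 → a + b = p → a + c = q → b + c = r := by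
        decide
      exact key x.2 y.2 z.2 _ _ _ hsum h3 h4
    have hxy' : x ≠ y := fun h => hxy (by rw [h])
    have hxz' : x ≠ z := fun h => hxz (by rw [h])
    have hyz' : y ≠ z := fun h => hyz (by rw [h])
    refine ⟨card_eq_three.2 ⟨x, y, z, hxy', hxz', hyz', rfl⟩, h2, ?_⟩
    intro u hu v hv huv
    simp only [mem_insert, mem_singleton] at hu hv
    rcases hu with hu | hu | hu <;> rcases hv with hv | hv | hv <;> rw [hu, hv] at huv ⊢ <;>
      first
      | exact absurd rfl huv
      | exact h3
      | exact h4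
      | exact h5
      | (rw [add_comm, Finset.pair_comm]; first | exact h3 | exact h4 | exact h5)

theorem LED_edge {V : Type} [Fintype V] [DecidableEq V] {F : Finset (Finset V)}
    {w : Finset V → ZMod 2} (hS : IsSurface F) (hw : Coc F w) (x y : V × ZMod 2) :
    {x, y} ∈ edges (lift F w) ↔
    x.1 ≠ y.1 ∧ {x.1, y.1} ∈ edges F ∧ x.2 + y.2 = w {x.1, y.1} := by
  constructor
  · intro h
    obtain ⟨h1, t, ht, h2⟩ := mem_edges.1 h
    have hxy : x ≠ y := edges_ne h
    have hx : x ∈ t := h2 (by simp)
    have hy : y ∈ t := h2 (by simp)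
    unfold lift at ht
    simp only [mem_filter, mem_univ, true_and] at ht
    obtain ⟨h3, h4, h5⟩ := ht
    have h6 := hS.card3 _ h4
    have hinj : Set.InjOn Prod.fst (t : Set (V × ZMod 2)) := by
      rw [← Finset.card_image_iff, h6, h3]
    have hxy1 : x.1 ≠ y.1 := fun h => hxy (hinj (by exact_mod_cast hx) (by exact_mod_cast hy) h)
    refine ⟨hxy1, mem_edges.2 ⟨card_pair hxy1, _, h4, ?_⟩, h5 x hx y hy hxy⟩
    intro u hu
    simp only [mem_insert, mem_singleton] at hu
    rcases hu with rfl | rfl
    · exact mem_image_of_mem _ hx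
    · exact mem_image_of_mem _ hy
  · rintro ⟨hxy, h2, h3⟩
    obtain ⟨h4, s, hs, h5⟩ := mem_edges.1 h2
    have h6 := hS.card3 s hs
    have h7 : (s \ {x.1, y.1}).card = 1 := by
      rw [card_sdiff_of_subset h5, h6, h4]
    obtain ⟨c, hc⟩ := card_eq_one.1 h7
    have hc1 : c ∈ s \ {x.1, y.1} := by rw [hc]; simp
    rw [mem_sdiff] at hc1
    simp only [mem_insert, mem_singleton, not_or] at hc1
    have hs2 : s = {x.1, y.1, c} := by
      have h8 := sdiff_union_of_subset h5
      rw [hc] at h8
      rw [← h8]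
      ext u
      simp only [mem_union, mem_insert, mem_singleton]
      tauto
    have hT : ({x, y, (c, x.2 + w {x.1, c})} : Finset (V × ZMod 2)) ∈ lift F w := by
      rw [LED_tri hS hw]
      refine ⟨hxy, fun h => hc1.2.1 h.symm, fun h => hc1.2.2 h.symm, ?_, h3, ?_⟩
      · rw [← hs2]
        exact hs
      · have key : ∀ a p : ZMod 2, a + (a + p) = p := by decide
        exact key _ _
    refine mem_edges.2 ⟨card_pair (fun h => hxy (by rw [h])), _, hT, ?_⟩
    intro u hu
    simp only [mem_insert, mem_singleton] at hu ⊢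
    tauto

theorem LED_three {V : Type} [Fintype V] [DecidableEq V] {F : Finset (Finset V)}
    {w : Finset V → ZMod 2} {t : Finset (V × ZMod 2)} (ht : t ∈ lift F w) :
    ∃ x y z, t = {x, y, z} := by
  unfold lift at ht
  simp only [mem_filter, mem_univ, true_and] at ht
  obtain ⟨x, y, z, -, -, -, h⟩ := card_eq_three.1 ht.1
  exact ⟨x, y, z, h⟩

theorem LED : LED_stmt := by
  intro V _ _ F w hS hw
  have hsg : ∀ x y : V × ZMod 2, (sg x).2 + (sg y).2 = x.2 + y.2 := by
    intro x y
    have key : ∀ a b : ZMod 2, a + 1 + (b + 1) = a + b := by decide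
    exact key _ _
  have im3 : ∀ x y z : V × ZMod 2,
      ({x, y, z} : Finset (V × ZMod 2)).image sg = {sg x, sg y, sg z} := by
    intro x y z
    rw [image_insert, image_insert, image_singleton]
  have im2 : ∀ x y : V × ZMod 2, ({x, y} : Finset (V × ZMod 2)).image sg = {sg x, sg y} := by
    intro x y
    rw [image_insert, image_singleton]
  refine ⟨LED_edge hS hw, LED_tri hS hw, ?_, ?_, ?_⟩
  · intro t ht
    obtain ⟨x, y, z, rfl⟩ := LED_three ht
    rw [im3, LED_tri hS hw]
    obtain ⟨h1, h2, h3, h4, h5, h6⟩ := (LED_tri hS hw x y z).1 ht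
    exact ⟨h1, h2, h3, h4, (hsg x y).trans h5, (hsg x z).trans h6⟩
  · intro e he
    obtain ⟨x, y, -, rfl⟩ := card_eq_two.1 (mem_edges.1 he).1
    obtain ⟨h1, h2, h3⟩ := (LED_edge hS hw x y).1 he
    constructor
    · rw [im2, LED_edge hS hw]
      exact ⟨h1, h2, (hsg x y).trans h3⟩
    · rw [image_insert, image_singleton]
      exact h2
  · intro t ht t' ht' him
    obtain ⟨x, y, z, rfl⟩ := LED_three ht
    obtain ⟨h1, h2, h3, h4, h5, h6⟩ := (LED_tri hS hw x y z).1 ht
    have ht2 := ht'
    unfold lift at ht2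
    simp only [mem_filter, mem_univ, true_and] at ht2
    obtain ⟨g1, g2, g3⟩ := ht2
    have hmem : ∀ u ∈ ({x, y, z} : Finset (V × ZMod 2)), ∃ u' ∈ t', u'.1 = u.1 := by
      intro u hu
      have : u.1 ∈ ({x, y, z} : Finset (V × ZMod 2)).image Prod.fst := mem_image_of_mem _ hu
      rw [him, mem_image] at this
      exact this
    obtain ⟨x', hx', hx1⟩ := hmem x (by simp)
    obtain ⟨y', hy', hy1⟩ := hmem y (by simp)
    obtain ⟨z', hz', hz1⟩ := hmem z (by simp)
    have n1 : x' ≠ y' := fun h => h1 (by rw [← hx1, ← hy1, h])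
    have n2 : x' ≠ z' := fun h => h2 (by rw [← hx1, ← hz1, h])
    have n3 : y' ≠ z' := fun h => h3 (by rw [← hy1, ← hz1, h])
    have ht3 : ({x', y', z'} : Finset (V × ZMod 2)) = t' := by
      refine eq_of_subset_of_card_le ?_ ?_
      · intro u hu
        simp only [mem_insert, mem_singleton] at hu
        rcases hu with rfl | rfl | rfl
        · exact hx'
        · exact hy'
        · exact hz'
      · rw [g1, card_eq_three.2 ⟨x', y', z', n1, n2, n3, rfl⟩]
    have r1 := g3 x' hx' y' hy' n1
    have r2 := g3 x' hx' z' hz' n2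
    rw [hx1, hy1, ← h5] at r1
    rw [hx1, hz1, ← h6] at r2
    have key : ∀ a b a' b' : ZMod 2, a' + b' = a + b → (a' = a → b' = b) ∧
        (a' = a + 1 → b' = b + 1) := by decide
    have key2 : ∀ a b : ZMod 2, b = a ∨ b = a + 1 := by decide
    rcases key2 x.2 x'.2 with hc | hc
    · left
      have e1 : x' = x := Prod.ext hx1 hc
      have e2 : y' = y := Prod.ext hy1 ((key _ _ _ _ r1).1 hc)
      have e3 : z' = z := Prod.ext hz1 ((key _ _ _ _ r2).1 hc)
      rw [← ht3, e1, e2, e3]
    · right
      have e1 : x' = sg x := Prod.ext hx1 hc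
      have e2 : y' = sg y := Prod.ext hy1 ((key _ _ _ _ r1).2 hc)
      have e3 : z' = sg z := Prod.ext hz1 ((key _ _ _ _ r2).2 hc)
      rw [← ht3, im3, e1, e2, e3]

end Pool.Agent.helper57.PP
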