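import Pool.Agent.helper57.PP.Spec

/-!
# Project pp (MP_974a61_co), row SWEEP: the three phases of the sweep of a disc
-/

set_option autoImplicit false

namespace Pool.Agent.helper57.PP

open Finset

theorem SWEEP_inner {W : Type} [DecidableEq W] (bs : List W) : ∀ (a z : W), bs ≠ [] →
    ∀ e ∈ pe (pth a bs z), ∃ b ∈ bs, b ∈ e := by
  induction bs with
  | nil => intro a z h; exact absurd rfl h
  | cons b l ih =>
    intro a z _ e he
    have h1 : pth a (b :: l) z = a :: b :: (l ++ [z]) := rfl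
    rw [h1, pe_cons_cons, mem_insert] at he
    rcases he with he | he
    · exact ⟨b, by simp, by rw [he]; simp⟩
    · by_cases hl : l = []
      · subst hl
        have h2 : b :: (([] : List W) ++ [z]) = [b, z] := rfl
        rw [h2, pe_cons_cons, pe_singleton, mem_insert] at he
        rcases he with he | he
        · exact ⟨b, by simp, by rw [he]; simp⟩
        · exact absurd he (notMem_empty _)
      · obtain ⟨b', hb', hb''⟩ := ih b z hl e he
        exact ⟨b', List.mem_cons_of_mem _ hb', hb''⟩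

theorem SWEEP_start {W : Type} [DecidableEq W] {T : Finset (Finset W)} {a z : W} {bs ts : List W}
    (D : Disc T a z bs ts) : St T a z bs T (pth a ts z) := by
  have hnd := D.nd
  have hQnd : (pth a ts z).Nodup := by
    unfold pth
    simp only [List.nodup_cons, List.nodup_append, List.mem_append, List.mem_cons] at hnd ⊢
    obtain ⟨h1, h2, h3, h4, h5⟩ := hnd
    refine ⟨?_, h4, by simp, ?_⟩
    · rintro (h | h)
      · exact h1 (Or.inr (Or.inr h))
      · exact h1 (Or.inl (by simpa using h))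
    · intro u hu v hv huv
      have hv' : v = z := by simpa using hv
      rw [huv, hv'] at hu
      exact h2 (Or.inr hu)
  have hsub : pe (pth a ts z) ⊆ bd T := by
    rw [D.bdT]
    exact subset_union_right
  refine ⟨Subset.refl _, hQnd, ⟨ts, rfl⟩, hsub.trans (bd_subset_edges T), ?_, ?_⟩
  · rw [D.bdT]
    have hdis : Disjoint (pe (pth a bs z)) (pe (pth a ts z)) := by
      rw [Finset.disjoint_left]
      intro e he he'
      obtain ⟨b, hb, hbe⟩ := SWEEP_inner bs a z D.bs_ne e he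
      have h1 := mem_of_mem_pe he' hbe
      unfold pth at h1
      simp only [List.nodup_cons, List.nodup_append, List.mem_append, List.mem_cons] at hnd h1
      obtain ⟨g1, g2, g3, g4, g5⟩ := hnd
      rcases h1 with h1 | h1 | h1
      · exact g1 (Or.inr (Or.inl (by rw [← h1]; exact hb)))
      · exact g5 b hb b h1 rfl
      · have hz : b = z := by simpa using h1
        exact g2 (Or.inl (by rw [← hz]; exact hb))
    exact (hdis.symmDiff_eq_sup).symm
  · intro x _ y _ h
    exact Or.inl h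

theorem SWEEP_below {W : Type} [DecidableEq W] (h6 : INR_stmt) (h7 : QOUT_stmt)
    {T R : Finset (Finset W)} {a z : W} {bs ts C : List W} (D : Disc T a z bs ts)
    (S : St T a z bs R C) {x t : W} (hx : x ∉ C) (hxR : x ∈ vs R) (ht : t ∈ ts) (htC : t ∉ C)
    (hxt : ({x, t} : Finset W) ∈ edges T) : False := by
  obtain ⟨g1, -⟩ := h6 W T R a z bs ts C D S x hx (Or.inl hxR)
  refine h7 W T R a z bs ts C D S t ht htC ?_
  obtain ⟨-, τ, hτ, hτ'⟩ := mem_edges.1 hxt
  refine mem_vs.2 ⟨τ, g1 (mem_cof.2 ⟨hτ, ?_⟩), hτ' (by simp)⟩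
  rw [singleton_subset_iff]
  exact hτ' (by simp)

theorem SWEEP (h1 : PT_stmt) (h2 : PH_stmt) (h3 : SWA_stmt) (h4 : ENDS_stmt) (h5 : CX_stmt)
    (h6 : INR_stmt) (h7 : QOUT_stmt) : SWEEP_stmt := by
  intro W _ T a z b1 bs' ts' t1 D HP HQ HX H2 H3
  have St0 := SWEEP_start D
  have hnd := D.nd
  obtain ⟨sw1, sw2, -⟩ := h3 W T a z (b1 :: bs')
  have ha : ∀ x ∈ [a], x ∉ ts' ++ [t1] := by
    intro x hx hx'
    rw [List.mem_singleton] at hx
    subst hx
    rw [List.nodup_cons] at hnd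
    exact hnd.1 (List.mem_cons_of_mem _ (List.mem_append.2 (Or.inr hx')))
  obtain ⟨σa, Ra, Ca, swa, pa, qa⟩ := h1 W T T a z (b1 :: bs') (ts' ++ [t1]) [a] [] (ts' ++ [t1])
    D HQ HX St0 rfl ha (by simp) (fun _ => rfl)
  obtain ⟨-, Sta, -⟩ := sw2 _ _ _ _ _ swa
  have hB : ∀ b ∈ (b1 :: bs').toFinset, b ∈ pth a (b1 :: bs') z := by
    intro b hb
    rw [List.mem_toFinset] at hb
    unfold pth
    exact List.mem_cons_of_mem _ (List.mem_append.2 (Or.inl hb))
  obtain ⟨σb, R0, C0, swb, pb, qb, rb⟩ := h2 W T Ra a z (b1 :: bs') (ts' ++ [t1])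
    (b1 :: bs').toFinset Ca D Sta hB qa
  obtain ⟨-, St0', -⟩ := sw2 _ _ _ _ _ swb
  have hB1 : ∀ b ∈ ({b1} : Finset W), b ∈ pth a (b1 :: bs') z := by
    intro b hb
    rw [mem_singleton] at hb
    rw [hb]
    unfold pth
    simp
  obtain ⟨σ1, R1, C1, swc, pc, qc, rc⟩ := h2 W T R0 a z (b1 :: bs') (ts' ++ [t1])
    {b1} C0 D St0' hB1 rb
  obtain ⟨-, St1, -⟩ := sw2 _ _ _ _ _ swc
  obtain ⟨σ2, R2, C2, swd, pd, qd, rd⟩ := h2 W T R1 a z (b1 :: bs') (ts' ++ [t1])
    ∅ C1 D St1 (fun b hb => absurd hb (notMem_empty _)) rc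
  obtain ⟨-, St2, -⟩ := sw2 _ _ _ _ _ swd
  have hend : ∀ x ∈ C2, x ∈ pth a (b1 :: bs') z := by
    intro x hx
    by_contra hx'
    obtain ⟨b, hb, -⟩ := qd x hx hx'
    exact absurd hb (notMem_empty _)
  obtain ⟨e1, e2⟩ := h4 W T R2 a z (b1 :: bs') (ts' ++ [t1]) C2 D St2 HP hend
  subst e1
  subst e2
  have sw12 := sw1 _ _ _ _ _ _ _ _ swc swd
  have sw0 := sw1 _ _ _ _ _ _ _ _ swa swb
  have swall := sw1 _ _ _ _ _ _ _ _ (sw1 _ _ _ _ _ _ _ _ sw0 swc) swd
  obtain ⟨-, cx12, -, cxP⟩ := h5 W T R0 ∅ a z (b1 :: bs') C0 _ (σ1 ++ σ2) sw12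
  obtain ⟨-, cx2, -, -⟩ := h5 W T R1 ∅ a z (b1 :: bs') C1 _ σ2 swd
  refine ⟨σa ++ σb, σ1, σ2, swall, ?_, ?_, ?_, ?_, ?_, ?_⟩
  · intro s hs b hb
    rcases List.mem_append.1 hs with hs | hs
    · exact (pa s hs).1 b hb
    · exact (pb s hs).1 b (List.mem_toFinset.2 hb)
  · intro s hs
    exact (pc s hs).1 b1 (mem_singleton_self _)
  · intro s hs
    have hxt : s.x ∉ ts' ++ [t1] := by
      rcases List.mem_append.1 hs with hs | hs
      · exact (pc s hs).2.1
      · exact (pd s hs).2.1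
    refine ⟨hxt, fun t ht hst => ?_⟩
    have hxP := cxP s hs
    have hx0 := ((cx12 s.x).1 (List.mem_map.2 ⟨s, hs, rfl⟩)).1
    have htt : t ∈ ts' ++ [t1] := List.mem_append.2 (Or.inl ht)
    by_cases hC : s.x ∈ C0
    · obtain ⟨b, hb, hsb⟩ := qb s.x hC hxP
      exact H2 s.x (left_mem_vs hst) hxP hxt b (List.mem_toFinset.1 hb) t ht ⟨hsb, hst⟩
    · exact SWEEP_below h6 h7 D St0' hC (hx0.resolve_left hC) htt (rb t htt) hst
  · intro s hs hst
    have hxt : s.x ∉ ts' ++ [t1] := (pd s hs).2.1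
    have hxP := cxP s (List.mem_append.2 (Or.inr hs))
    have hx0 := ((cx2 s.x).1 (List.mem_map.2 ⟨s, hs, rfl⟩)).1
    have htt : t1 ∈ ts' ++ [t1] := by simp
    by_cases hC : s.x ∈ C1
    · obtain ⟨b, hb, hsb⟩ := qc s.x hC hxP
      rw [mem_singleton] at hb
      subst hb
      exact H3 s.x (left_mem_vs hst) hxP hxt ⟨hsb, hst⟩
    · exact SWEEP_below h6 h7 D St1 hC (hx0.resolve_left hC) htt (rc t1 htt) hst
  · intro s hs
    rcases List.mem_append.1 hs with hs | hs
    · rcases List.mem_append.1 hs with hs | hs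
      · rcases List.mem_append.1 hs with hs | hs
        · exact (pa s hs).2.1
        · exact (pb s hs).2.2
      · exact (pc s hs).2.2
    · exact (pd s hs).2.2
  · intro s hs hst
    rcases List.mem_append.1 hs with hs | hs
    · exact (pa s hs).2.2 hst
    · exact absurd hst (pb s hs).2.1

end Pool.Agent.helper57.PP
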